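import Mathlib

set_option autoImplicit false

open Finset

namespace Pool.Agent.Helper55K9.TubeStage

/-- the digit vector: height `h a` in coordinate `0`, and `a` in the other coordinates -/
def dig {n M : ℕ} (h : (Fin n → Fin M) → Fin M) (a : Fin n → Fin M) : Fin (n + 1) → Fin M :=
  Fin.cons (h a) a

lemma dig_injective {n M : ℕ} (h : (Fin n → Fin M) → Fin M) : Function.Injective (dig h) := by
  intro a b hab
  have := congrArg Fin.tail hab
  simpa [dig] using this

/-- number of naturals near a real -/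
lemma card_near (M r : ℕ) (c : ℝ) :
    (univ.filter (fun b : Fin M => |((b : ℕ) : ℝ) - c| ≤ r)).card ≤ 2 * r + 1 := by
  classical
  have h1 : ((univ.filter (fun b : Fin M => |((b : ℕ) : ℝ) - c| ≤ r)).image
      (fun b : Fin M => ((b : ℕ) : ℤ))) ⊆ Finset.Icc ⌈c - r⌉ ⌊c + r⌋ := by
    intro z hz
    rw [Finset.mem_image] at hz
    obtain ⟨b, hb, rfl⟩ := hz
    rw [Finset.mem_filter, abs_le] at hb
    rw [Finset.mem_Icc, Int.ceil_le, Int.le_floor]
    push_cast
    constructor <;> linarith [hb.2.1, hb.2.2]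
  have h2 := Finset.card_le_card h1
  rw [Finset.card_image_of_injective] at h2
  · refine h2.trans ?_
    rw [Int.card_Icc]
    have h3 : (⌊c + r⌋ : ℝ) ≤ c + r := Int.floor_le _
    have h4 : c - r ≤ (⌈c - r⌉ : ℝ) := Int.le_ceil _
    have h5 : ⌊c + r⌋ - ⌈c - r⌉ ≤ 2 * r := by
      have : ((⌊c + r⌋ - ⌈c - r⌉ : ℤ) : ℝ) ≤ ((2 * r : ℤ) : ℝ) := by
        push_cast; linarith
      exact_mod_cast this
    omega
  · intro a b hab
    have : ((a : ℕ) : ℤ) = ((b : ℕ) : ℤ) := hab
    exact Fin.ext (by exact_mod_cast this)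

/-- lattice points near the segment from `z` to `z'` -/
noncomputable def seg {n M : ℕ} (l : ℕ) (z z' : Fin (n + 1) → Fin M) : Finset (Fin (n + 1) → Fin M) := by
  classical
  exact univ.filter (fun y => ∃ θ : ℝ, 0 ≤ θ ∧ θ ≤ 1 ∧
    ∀ i, |((y i : ℕ) : ℝ) - ((1 - θ) * ((z i : ℕ) : ℝ) + θ * ((z' i : ℕ) : ℝ))| ≤ 4 * (l : ℝ))

lemma card_seg {n M : ℕ} (l : ℕ) (hl : 1 ≤ l) (hlM : l ≤ M) (z z' : Fin (n + 1) → Fin M) :
    ((seg l z z').card : ℝ) ≤ 2 * 11 ^ (n + 1) * M * l ^ n := by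
  classical
  have hM : 0 < M := by omega
  have hM' : (0 : ℝ) < M := by exact_mod_cast hM
  have hl' : (0 : ℝ) < l := by exact_mod_cast hl
  set c : ℕ → Fin (n + 1) → ℝ := fun k i =>
    (1 - (k * l / M : ℝ)) * ((z i : ℕ) : ℝ) + (k * l / M : ℝ) * ((z' i : ℕ) : ℝ) with hc
  have hsub : seg l z z' ⊆ (Finset.range (M / l + 1)).biUnion (fun k =>
      Fintype.piFinset (fun i => univ.filter
        (fun b : Fin M => |((b : ℕ) : ℝ) - c k i| ≤ ((5 * l : ℕ) : ℝ)))) := by
    intro y hy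
    unfold seg at hy
    rw [Finset.mem_filter] at hy
    obtain ⟨-, θ, h0, h1, hy⟩ := hy
    rw [Finset.mem_biUnion]
    refine ⟨⌊θ * M / l⌋₊, ?_, ?_⟩
    · rw [Finset.mem_range, Nat.lt_succ_iff]
      have e : M / l = ⌊(M : ℝ) / l⌋₊ := by
        rw [Nat.floor_div_natCast, Nat.floor_natCast]
      rw [e]
      apply Nat.floor_le_floor
      apply div_le_div_of_nonneg_right _ hl'.le
      nlinarith
    · rw [Fintype.mem_piFinset]
      intro i
      rw [Finset.mem_filter]
      refine ⟨Finset.mem_univ _, ?_⟩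
      set k := ⌊θ * M / l⌋₊ with hk
      have h2 : (k : ℝ) ≤ θ * M / l := Nat.floor_le (by positivity)
      have h3 : θ * M / l < k + 1 := Nat.lt_floor_add_one _
      have h4 : |θ - k * l / M| ≤ l / M := by
        rw [abs_le]
        rw [le_div_iff₀ hl'] at h2
        rw [div_lt_iff₀ hl'] at h3
        constructor
        · rw [neg_le_sub_iff_le_add, div_le_iff₀ hM']
          have : l / (M : ℝ) * M = l := by field_simp
          nlinarith
        · rw [sub_le_iff_le_add, ← add_div, le_div_iff₀ hM']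
          nlinarith
      have hz : ((z i : ℕ) : ℝ) ≤ M := by exact_mod_cast (z i).2.le
      have hz' : ((z' i : ℕ) : ℝ) ≤ M := by exact_mod_cast (z' i).2.le
      have hz0 : (0 : ℝ) ≤ ((z i : ℕ) : ℝ) := Nat.cast_nonneg _
      have hz0' : (0 : ℝ) ≤ ((z' i : ℕ) : ℝ) := Nat.cast_nonneg _
      have h5 : |((z' i : ℕ) : ℝ) - ((z i : ℕ) : ℝ)| ≤ M := by
        rw [abs_le]; constructor <;> linarith
      have h6 := hy i
      have e : ((y i : ℕ) : ℝ) - c k i = (((y i : ℕ) : ℝ) -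
          ((1 - θ) * ((z i : ℕ) : ℝ) + θ * ((z' i : ℕ) : ℝ))) +
          (θ - k * l / M) * (((z' i : ℕ) : ℝ) - ((z i : ℕ) : ℝ)) := by
        simp only [hc]; ring
      rw [e]
      refine (abs_add_le _ _).trans ?_
      rw [abs_mul]
      have h7 : |θ - k * l / M| * |((z' i : ℕ) : ℝ) - ((z i : ℕ) : ℝ)| ≤ l / M * M :=
        mul_le_mul h4 h5 (abs_nonneg _) (by positivity)
      have h8 : l / (M : ℝ) * M = l := by field_simp
      push_cast
      linarith
  have h1 : (seg l z z').card ≤ (M / l + 1) * (11 * l) ^ (n + 1) := by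
    refine (Finset.card_le_card hsub).trans ?_
    refine (Finset.card_biUnion_le).trans ?_
    have : ∀ k ∈ Finset.range (M / l + 1), (Fintype.piFinset (fun i => univ.filter
        (fun b : Fin M => |((b : ℕ) : ℝ) - c k i| ≤ ((5 * l : ℕ) : ℝ)))).card ≤ (11 * l) ^ (n + 1) := by
      intro k _
      rw [Fintype.card_piFinset]
      refine (Finset.prod_le_pow_card _ _ (11 * l) ?_).trans ?_
      · intro i _
        refine (card_near M (5 * l) (c k i)).trans (by omega)
      · simp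
    refine (Finset.sum_le_card_nsmul _ _ _ this).trans ?_
    simp
  have h2 : ((M / l + 1 : ℕ) : ℝ) ≤ 2 * M / l := by
    have h3 : ((M / l : ℕ) : ℝ) ≤ M / l := Nat.cast_div_le
    have h4 : (1 : ℝ) ≤ M / l := by
      rw [le_div_iff₀ hl']
      have : (l : ℝ) ≤ M := by exact_mod_cast hlM
      linarith
    push_cast
    have h5 : 2 * (M : ℝ) / l = M / l + M / l := by ring
    linarith
  calc ((seg l z z').card : ℝ) ≤ (((M / l + 1) * (11 * l) ^ (n + 1) : ℕ) : ℝ) := by exact_mod_cast h1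
    _ = ((M / l + 1 : ℕ) : ℝ) * (11 * l) ^ (n + 1) := by push_cast; ring
    _ ≤ (2 * M / l) * (11 * l) ^ (n + 1) := by
        apply mul_le_mul_of_nonneg_right h2 (by positivity)
    _ = 2 * 11 ^ (n + 1) * M * l ^ n := by
        rw [mul_pow, pow_succ (l : ℝ) n]
        field_simp

/-- number of columns in which the chosen cell is in `S` -/
noncomputable def hits {n M : ℕ} (S : Finset (Fin (n + 1) → Fin M)) (h : (Fin n → Fin M) → Fin M) : ℕ := by
  classical
  exact (univ.filter (fun a => dig h a ∈ S)).card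

lemma chernoff {n M : ℕ} (hM : 0 < M) (S : Finset (Fin (n + 1) → Fin M)) :
    ∑ h : (Fin n → Fin M) → Fin M, (2 : ℝ) ^ (hits S h) ≤
      (M : ℝ) ^ (Fintype.card (Fin n → Fin M)) * Real.exp (S.card / M) := by
  classical
  have hM' : (0 : ℝ) < M := by exact_mod_cast hM
  have h1 : ∀ h : (Fin n → Fin M) → Fin M, (2 : ℝ) ^ (hits S h) =
      ∏ a : Fin n → Fin M, (if (Fin.cons (h a) a : Fin (n + 1) → Fin M) ∈ S then (2 : ℝ) else 1) := by
    intro h
    rw [Finset.prod_ite]
    simp only [prod_const, one_pow, mul_one]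
    rfl
  have h2 : ∑ h : (Fin n → Fin M) → Fin M, (2 : ℝ) ^ (hits S h) =
      ∏ a : Fin n → Fin M, ∑ b : Fin M,
        (if (Fin.cons b a : Fin (n + 1) → Fin M) ∈ S then (2 : ℝ) else 1) := by
    rw [Finset.prod_univ_sum, Fintype.piFinset_univ]
    exact Finset.sum_congr rfl (fun h _ => h1 h)
  have h3 : ∀ a : Fin n → Fin M, ∑ b : Fin M,
        (if (Fin.cons b a : Fin (n + 1) → Fin M) ∈ S then (2 : ℝ) else 1) ≤
        M * Real.exp (((univ.filter (fun b : Fin M => (Fin.cons b a : Fin (n + 1) → Fin M) ∈ S)).card : ℝ)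
          / M) := by
    intro a
    have e : ∑ b : Fin M, (if (Fin.cons b a : Fin (n + 1) → Fin M) ∈ S then (2 : ℝ) else 1) =
        M + ((univ.filter (fun b : Fin M => (Fin.cons b a : Fin (n + 1) → Fin M) ∈ S)).card : ℝ) := by
      have : ∀ b : Fin M, (if (Fin.cons b a : Fin (n + 1) → Fin M) ∈ S then (2 : ℝ) else 1) =
          1 + (if (Fin.cons b a : Fin (n + 1) → Fin M) ∈ S then (1 : ℝ) else 0) := by
        intro b
        split_ifs <;> norm_num
      simp only [this]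
      rw [Finset.sum_add_distrib, Finset.sum_boole]
      simp
    rw [e]
    set k : ℝ := ((univ.filter (fun b : Fin M => (Fin.cons b a : Fin (n + 1) → Fin M) ∈ S)).card : ℝ)
    have h4 := Real.add_one_le_exp (k / M)
    calc (M : ℝ) + k = M * (k / M + 1) := by field_simp; ring
      _ ≤ M * Real.exp (k / M) := mul_le_mul_of_nonneg_left h4 hM'.le
  rw [h2]
  refine (Finset.prod_le_prod (fun a _ => Finset.sum_nonneg fun b _ => by split_ifs <;> norm_num)
    (fun a _ => h3 a)).trans ?_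
  rw [Finset.prod_mul_distrib, Finset.prod_const, ← Real.exp_sum, Finset.card_univ]
  apply mul_le_mul_of_nonneg_left _ (by positivity)
  apply Real.exp_le_exp.2
  rw [← Finset.sum_div]
  apply div_le_div_of_nonneg_right _ hM'.le
  have h5 : ∑ a : Fin n → Fin M,
      (univ.filter (fun b : Fin M => (Fin.cons b a : Fin (n + 1) → Fin M) ∈ S)).card ≤ S.card := by
    rw [Finset.card_eq_sum_card_fiberwise (f := fun y => (Fin.tail y : Fin n → Fin M)) (t := univ)
      (fun _ _ => Finset.mem_coe.2 (Finset.mem_univ _))]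
    refine Finset.sum_le_sum fun a _ => ?_
    refine Finset.card_le_card_of_injOn (fun b => (Fin.cons b a : Fin (n + 1) → Fin M)) ?_ ?_
    · intro b hb
      rw [Finset.mem_coe, Finset.mem_filter] at hb
      rw [Finset.mem_coe, Finset.mem_filter]
      exact ⟨hb.2, by simp⟩
    · intro b _ b' _ hbb
      have := congrFun hbb 0
      simpa using this
  exact_mod_cast h5

/-- The stage lemma: there is a choice of one cell in every column such that every segment
neighbourhood contains few chosen cells. -/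
lemma stage (n J : ℕ) : ∃ h : (Fin n → Fin (2 ^ (J + 1))) → Fin (2 ^ (J + 1)),
    ∀ l, 1 ≤ l → l ≤ 2 ^ (J + 1) → ∀ z z' : Fin (n + 1) → Fin (2 ^ (J + 1)),
      hits (seg l z z') h ≤ (J + 1) * (2 * n + 3) + 4 * 11 ^ (n + 1) * l ^ n := by
  classical
  by_contra hcon
  push Not at hcon
  set M : ℕ := 2 ^ (J + 1) with hM
  have hM0 : 0 < M := by positivity
  have hM' : (0 : ℝ) < M := by exact_mod_cast hM0
  choose l hl1 hl2 z z' hlt using hcon
  -- weights
  let W : ℕ → ℝ := fun l => (M : ℝ) ^ (2 * n + 3) * Real.exp (2 * 11 ^ (n + 1) * l ^ n)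
  have hW : ∀ l, 0 < W l := fun l => by positivity
  have key : ∀ h : (Fin n → Fin M) → Fin M, (W (l h)) < 2 ^ (hits (seg (l h) (z h) (z' h)) h) := by
    intro h
    have h1 := hlt h
    have h2 : (2 : ℝ) ^ ((J + 1) * (2 * n + 3) + 4 * 11 ^ (n + 1) * (l h) ^ n) <
        2 ^ (hits (seg (l h) (z h) (z' h)) h) := pow_lt_pow_right₀ (by norm_num) h1
    refine lt_of_le_of_lt ?_ h2
    rw [pow_add, pow_mul]
    show (M : ℝ) ^ (2 * n + 3) * Real.exp (2 * 11 ^ (n + 1) * (l h : ℝ) ^ n) ≤ _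
    have e1 : ((2 : ℝ) ^ (J + 1)) = (M : ℝ) := by rw [hM]; push_cast; rfl
    rw [e1]
    apply mul_le_mul_of_nonneg_left _ (by positivity)
    have e2 : (2 : ℝ) ^ (4 * 11 ^ (n + 1) * l h ^ n) = ((4 : ℝ)) ^ (2 * 11 ^ (n + 1) * l h ^ n) := by
      rw [show (4 : ℝ) = 2 ^ 2 by norm_num, ← pow_mul]
      congr 1
      ring
    rw [e2]
    have e3 : Real.exp (2 * 11 ^ (n + 1) * (l h : ℝ) ^ n) =
        (Real.exp 1) ^ (2 * 11 ^ (n + 1) * l h ^ n) := by
      rw [← Real.exp_nat_mul]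
      congr 1
      push_cast
      ring
    rw [e3]
    apply pow_le_pow_left₀ (Real.exp_pos _).le
    have := Real.exp_one_lt_d9
    linarith
  -- the sum over all triples
  have hsum : ∀ h : (Fin n → Fin M) → Fin M, (1 : ℝ) <
      ∑ t : Fin M × (Fin (n + 1) → Fin M) × (Fin (n + 1) → Fin M),
        2 ^ (hits (seg ((t.1 : ℕ) + 1) t.2.1 t.2.2) h) / W ((t.1 : ℕ) + 1) := by
    intro h
    have hl : l h - 1 < M := by have := hl1 h; have := hl2 h; omega
    let t0 : Fin M × (Fin (n + 1) → Fin M) × (Fin (n + 1) → Fin M) := (⟨l h - 1, hl⟩, z h, z' h)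
    have e : ((t0.1 : ℕ) + 1) = l h := by
      show l h - 1 + 1 = l h
      have := hl1 h
      omega
    have h3 := Finset.single_le_sum (f := fun t : Fin M × (Fin (n + 1) → Fin M) ×
      (Fin (n + 1) → Fin M) =>
      (2 : ℝ) ^ (hits (seg ((t.1 : ℕ) + 1) t.2.1 t.2.2) h) / W ((t.1 : ℕ) + 1))
      (fun t _ => by have := hW ((t.1 : ℕ) + 1); positivity) (Finset.mem_univ t0)
    refine lt_of_lt_of_le ?_ h3
    show 1 < (2 : ℝ) ^ (hits (seg ((t0.1 : ℕ) + 1) t0.2.1 t0.2.2) h) / W ((t0.1 : ℕ) + 1)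
    rw [e, one_lt_div (hW _)]
    exact key h
  have hcount : (M : ℝ) ^ (Fintype.card (Fin n → Fin M)) <
      (M : ℝ) ^ (Fintype.card (Fin n → Fin M)) := by
    calc (M : ℝ) ^ (Fintype.card (Fin n → Fin M))
        = ∑ h : (Fin n → Fin M) → Fin M, (1 : ℝ) := by
          rw [Finset.sum_const, Finset.card_univ, Fintype.card_fun, Fintype.card_fin]
          simp
      _ < ∑ h : (Fin n → Fin M) → Fin M,
          ∑ t : Fin M × (Fin (n + 1) → Fin M) × (Fin (n + 1) → Fin M),
            (2 : ℝ) ^ (hits (seg ((t.1 : ℕ) + 1) t.2.1 t.2.2) h) / W ((t.1 : ℕ) + 1) := by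
          apply Finset.sum_lt_sum_of_nonempty
          · exact ⟨fun _ => ⟨0, hM0⟩, Finset.mem_univ _⟩
          · intro h _
            exact hsum h
      _ = ∑ t : Fin M × (Fin (n + 1) → Fin M) × (Fin (n + 1) → Fin M),
          (∑ h : (Fin n → Fin M) → Fin M,
            (2 : ℝ) ^ (hits (seg ((t.1 : ℕ) + 1) t.2.1 t.2.2) h)) / W ((t.1 : ℕ) + 1) := by
          rw [Finset.sum_comm]
          exact Finset.sum_congr rfl fun t _ => by rw [Finset.sum_div]
      _ ≤ ∑ t : Fin M × (Fin (n + 1) → Fin M) × (Fin (n + 1) → Fin M),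
          (M : ℝ) ^ (Fintype.card (Fin n → Fin M)) / (M : ℝ) ^ (2 * n + 3) := by
          refine Finset.sum_le_sum fun t _ => ?_
          rw [div_le_div_iff₀ (hW _) (by positivity)]
          refine (mul_le_mul_of_nonneg_right (chernoff hM0 _) (by positivity)).trans ?_
          have hc := card_seg (n := n) ((t.1 : ℕ) + 1) (by omega) (by have := t.1.2; omega)
            t.2.1 t.2.2
          have h4 : (((seg ((t.1 : ℕ) + 1) t.2.1 t.2.2).card : ℝ) / M) ≤
              2 * 11 ^ (n + 1) * (((t.1 : ℕ) + 1 : ℕ) : ℝ) ^ n := by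
            rw [div_le_iff₀ hM']
            refine hc.trans (le_of_eq (by ring))
          have h5 := Real.exp_le_exp.2 h4
          show (M : ℝ) ^ (Fintype.card (Fin n → Fin M)) *
              Real.exp (((seg ((t.1 : ℕ) + 1) t.2.1 t.2.2).card : ℝ) / M) * (M : ℝ) ^ (2 * n + 3) ≤
            (M : ℝ) ^ (Fintype.card (Fin n → Fin M)) * ((M : ℝ) ^ (2 * n + 3) *
              Real.exp (2 * 11 ^ (n + 1) * (((t.1 : ℕ) + 1 : ℕ) : ℝ) ^ n))
          rw [mul_assoc, mul_comm (Real.exp _)]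
          apply mul_le_mul_of_nonneg_left _ (by positivity)
          apply mul_le_mul_of_nonneg_left h5 (by positivity)
      _ = (M : ℝ) ^ (Fintype.card (Fin n → Fin M)) := by
          rw [Finset.sum_const, Finset.card_univ, nsmul_eq_mul]
          have : (Fintype.card (Fin M × (Fin (n + 1) → Fin M) × (Fin (n + 1) → Fin M)) : ℝ) =
              (M : ℝ) ^ (2 * n + 3) := by
            simp only [Fintype.card_prod, Fintype.card_fun, Fintype.card_fin]
            push_cast
            ring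
          rw [this]
          field_simp
  exact lt_irrefl _ hcount

/-- the number of chosen cells near a line -/
lemma near_line {n M : ℕ} (B : ℕ → ℕ) (h : (Fin n → Fin M) → Fin M)
    (hh : ∀ l, 1 ≤ l → l ≤ M → ∀ z z' : Fin (n + 1) → Fin M, hits (seg l z z') h ≤ B l)
    (l : ℕ) (hl : 1 ≤ l) (hlM : l ≤ M) (q u : Fin (n + 1) → ℝ) (N : Finset (Fin n → Fin M))
    (hN : ∀ a ∈ N, ∃ s : ℝ, ∀ i, |((dig h a i : ℕ) : ℝ) - q i - s * u i| ≤ 2 * (l : ℝ)) :
    N.card ≤ B l := by
  classical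
  rcases N.eq_empty_or_nonempty with rfl | hne
  · simp
  have hN' : ∀ a, ∃ s : ℝ, a ∈ N → ∀ i, |((dig h a i : ℕ) : ℝ) - q i - s * u i| ≤ 2 * (l : ℝ) := by
    intro a
    by_cases ha : a ∈ N
    · obtain ⟨s, hs⟩ := hN a ha
      exact ⟨s, fun _ => hs⟩
    · exact ⟨0, fun h => absurd h ha⟩
  choose s hs using hN'
  obtain ⟨a1, ha1, hmin⟩ := Finset.exists_min_image N s hne
  obtain ⟨a2, ha2, hmax⟩ := Finset.exists_max_image N s hne
  refine (Finset.card_le_card ?_).trans (hh l hl hlM (dig h a1) (dig h a2))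
  intro a ha
  rw [Finset.mem_filter]
  refine ⟨Finset.mem_univ _, ?_⟩
  unfold seg
  rw [Finset.mem_filter]
  refine ⟨Finset.mem_univ _, ?_⟩
  have h1 := hmin a ha
  have h2 := hmax a ha
  obtain ⟨θ, h0, h1', hθ⟩ : ∃ θ : ℝ, 0 ≤ θ ∧ θ ≤ 1 ∧ s a = (1 - θ) * s a1 + θ * s a2 := by
    rcases eq_or_lt_of_le (h1.trans h2) with he | hlt
    · exact ⟨0, le_rfl, zero_le_one, by linarith⟩
    · have hpos : 0 < s a2 - s a1 := by linarith
      refine ⟨(s a - s a1) / (s a2 - s a1), div_nonneg (by linarith) hpos.le,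
        (div_le_one hpos).2 (by linarith), ?_⟩
      field_simp
      ring
  refine ⟨θ, h0, h1', fun i => ?_⟩
  have e : ((dig h a i : ℕ) : ℝ) - ((1 - θ) * ((dig h a1 i : ℕ) : ℝ) + θ * ((dig h a2 i : ℕ) : ℝ)) =
      (((dig h a i : ℕ) : ℝ) - q i - s a * u i) -
      ((1 - θ) * (((dig h a1 i : ℕ) : ℝ) - q i - s a1 * u i) +
        θ * (((dig h a2 i : ℕ) : ℝ) - q i - s a2 * u i)) := by
    rw [hθ]; ring
  rw [e]
  have b1 := hs a ha i
  have b2 := hs a1 ha1 i
  have b3 := hs a2 ha2 i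
  rw [abs_le] at b1 b2 b3 ⊢
  have c2 : (1 - θ) * (((dig h a1 i : ℕ) : ℝ) - q i - s a1 * u i) ≤ (1 - θ) * (2 * l) :=
    mul_le_mul_of_nonneg_left b2.2 (by linarith)
  have c3 : θ * (((dig h a2 i : ℕ) : ℝ) - q i - s a2 * u i) ≤ θ * (2 * l) :=
    mul_le_mul_of_nonneg_left b3.2 h0
  have c2' : (1 - θ) * (-(2 * l)) ≤ (1 - θ) * (((dig h a1 i : ℕ) : ℝ) - q i - s a1 * u i) :=
    mul_le_mul_of_nonneg_left b2.1 (by linarith)
  have c3' : θ * (-(2 * l)) ≤ θ * (((dig h a2 i : ℕ) : ℝ) - q i - s a2 * u i) :=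
    mul_le_mul_of_nonneg_left b3.1 h0
  constructor <;> nlinarith

end Pool.Agent.Helper55K9.TubeStage
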